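import Pool.Agent.Lib.MP_c27bde_al.RF.Disp
import Pool.Agent.Lib.MP_c27bde_al.FP.Fin

/-!
MP_c27bde_al, RF: quotients of subgroups of Thompson's group F that are generated by torsion
elements are metabelian; locally residually finite subgroups of F are metabelian.
-/

set_option autoImplicit false

namespace FPT.RFM

open Set FPT
open scoped commutatorElement

/-- commutator subgroup -/
abbrev D1 (G : Type) [Group G] : Subgroup G := ⁅(⊤ : Subgroup G), (⊤ : Subgroup G)⁆

/-- second derived subgroup -/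
abbrev D2 (G : Type) [Group G] : Subgroup G := ⁅D1 G, D1 G⁆

/-- the group `G / N` is generated by elements of finite order -/
def TorGen {G : Type} [Group G] (N : Subgroup G) : Prop :=
  Subgroup.closure {y : G | ∃ n : ℕ, 0 < n ∧ y ^ n ∈ N} = ⊤

/-- the second derived subgroup is in `N` -/
theorem derived_le {G : Type} [Group G] (θ : G →* Hm) (hθ : Function.Injective θ)
    (hpl : ∀ g, IsPL (θ g)) (N : Subgroup G) (hN : N.Normal) (hT : TorGen N) :
    derivedSeries G 2 ≤ N := by
  have key : ∀ k1 ∈ ⁅θ.range, θ.range⁆, ∀ k2 ∈ ⁅θ.range, θ.range⁆,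
      k1 * k2 * k1⁻¹ * k2⁻¹ ∈ N.map θ := by
    intro k1 hk1 k2 hk2
    refine comm_mem FINM.plb FINM.pl2 FINM.ord θ.range (N.map θ) ?_ ?_ ?_ ?_ k1 k2 hk1 hk2
    · rintro g ⟨z, rfl⟩
      exact hpl z
    · rintro g ⟨z, -, rfl⟩
      exact ⟨z, rfl⟩
    · rintro h ⟨z, rfl⟩ n ⟨w, hw, rfl⟩
      exact ⟨z * w * z⁻¹, hN.conj_mem w hw z, by rw [map_mul, map_mul, map_inv]⟩
    · rintro u hu g ⟨z, rfl⟩
      have hz : z ∈ Subgroup.closure {y : G | ∃ n : ℕ, 0 < n ∧ y ^ n ∈ N} := by
        rw [hT]; trivial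
      induction hz using Subgroup.closure_induction with
      | mem y hy =>
        obtain ⟨n, hn, hy⟩ := hy
        apply FINM.ord.powi (θ y) n u hn
        rw [← map_pow]
        exact hu _ ⟨_, hy, rfl⟩
      | one => rw [map_one]; rfl
      | mul x y _ _ hx hy =>
        rw [map_mul]
        show θ x (θ y u) = u
        rw [hy, hx]
      | inv x _ hx =>
        rw [map_inv]
        exact inv_fix hx
  have h1 : derivedSeries G 2 = D2 G := by
    simp [derivedSeries]
  rw [h1, Subgroup.commutator_le]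
  intro x hx y hy
  have hm : ∀ z ∈ D1 G, θ z ∈ ⁅θ.range, θ.range⁆ := by
    intro z hz
    have h2 := Subgroup.map_commutator (⊤ : Subgroup G) ⊤ θ
    rw [MonoidHom.range_eq_map, ← h2]
    exact ⟨z, hz, rfl⟩
  obtain ⟨w, hw, hw'⟩ := key (θ x) (hm x hx) (θ y) (hm y hy)
  have h3 : w = ⁅x, y⁆ := by
    apply hθ
    rw [hw', commutatorElement_def, map_mul, map_mul, map_mul, map_inv, map_inv]
  rw [← h3]
  exact hw

/-- the representation of `T` -/
theorem exists_rep (T : Type) [Group T] (e : T ≃* FT) :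
    ∃ θ : T →* Hm, Function.Injective θ ∧ ∀ g, IsPL (θ g) := by
  obtain ⟨ρ, hρpl, hρ1, -⟩ := FINM.rho
  exact ⟨ρ.comp e.toMonoidHom, (FINM.fq Hm ρ hρ1).comp e.injective, fun g => hρpl _⟩

/-- part 1 -/
theorem part1 (T : Type) [Group T] (e : T ≃* FT) (H : Subgroup T) (N : Subgroup ↥H)
    (hN : N.Normal) (hT : TorGen N) : derivedSeries ↥H 2 ≤ N := by
  obtain ⟨θ, hθ, hpl⟩ := exists_rep T e
  exact derived_le (θ.comp H.subtype) (hθ.comp (Subgroup.subtype_injective H)) (fun g => hpl _)
    N hN hT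

/-- every finitely generated subgroup is residually (generated by torsion elements) -/
def LocRes (H : Type) [Group H] : Prop :=
  ∀ L : Subgroup H, L.FG → ∀ g : ↥L, g ≠ 1 → ∃ N : Subgroup ↥L, N.Normal ∧ g ∉ N ∧ TorGen N

theorem metab (T : Type) [Group T] (e : T ≃* FT) (H : Subgroup T) (hR : LocRes ↥H) :
    derivedSeries ↥H 2 = ⊥ := by
  have key : ∀ a b c d : ↥H, ⁅a, b⁆ * ⁅c, d⁆ = ⁅c, d⁆ * ⁅a, b⁆ := by
    intro a b c d
    by_contra hne
    obtain ⟨L, hL⟩ : ∃ L : Subgroup ↥H, L = Subgroup.closure {a, b, c, d} := ⟨_, rfl⟩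
    have hLfg : L.FG := by
      rw [hL, Subgroup.fg_iff]
      exact ⟨{a, b, c, d}, rfl, Set.toFinite _⟩
    have ha : a ∈ L := by rw [hL]; exact Subgroup.subset_closure (by simp)
    have hb : b ∈ L := by rw [hL]; exact Subgroup.subset_closure (by simp)
    have hc : c ∈ L := by rw [hL]; exact Subgroup.subset_closure (by simp)
    have hd : d ∈ L := by rw [hL]; exact Subgroup.subset_closure (by simp)
    obtain ⟨g, hg⟩ : ∃ g : ↥L, g = ⁅⁅(⟨a, ha⟩ : ↥L), (⟨b, hb⟩ : ↥L)⁆,
        ⁅(⟨c, hc⟩ : ↥L), (⟨d, hd⟩ : ↥L)⁆⁆ := ⟨_, rfl⟩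
    have hg1 : g ≠ 1 := by
      intro h
      apply hne
      have h1 := hg.symm.trans h
      rw [commutatorElement_eq_one_iff_mul_comm] at h1
      have h2 := congrArg Subtype.val h1
      exact h2
    obtain ⟨N, hN, hgN, hT⟩ := hR L hLfg g hg1
    obtain ⟨θ, hθ, hpl⟩ := exists_rep T e
    have hle := derived_le ((θ.comp H.subtype).comp L.subtype)
      ((hθ.comp (Subgroup.subtype_injective H)).comp (Subgroup.subtype_injective L))
      (fun g => hpl _) N hN hT
    apply hgN
    apply hle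
    have h1 : derivedSeries ↥L 2 = D2 ↥L := by
      simp [derivedSeries]
    rw [h1, hg]
    exact Subgroup.commutator_mem_commutator
      (Subgroup.commutator_mem_commutator (Subgroup.mem_top _) (Subgroup.mem_top _))
      (Subgroup.commutator_mem_commutator (Subgroup.mem_top _) (Subgroup.mem_top _))
  have h1 : derivedSeries ↥H 2 = D2 ↥H := by
    simp [derivedSeries]
  rw [h1, eq_bot_iff, Subgroup.commutator_le]
  intro x hx y hy
  rw [Subgroup.mem_bot, commutatorElement_eq_one_iff_mul_comm]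
  have step : ∀ c d : ↥H, ∀ x ∈ D1 ↥H, x * ⁅c, d⁆ = ⁅c, d⁆ * x := by
    intro c d x hx
    unfold D1 at hx
    rw [Subgroup.commutator_def] at hx
    induction hx using Subgroup.closure_induction with
    | mem x hx =>
      obtain ⟨a, -, b, -, rfl⟩ := hx
      exact key a b c d
    | one => rw [one_mul, mul_one]
    | mul x y _ _ hx hy =>
      have h1 : Commute x ⁅c, d⁆ := hx
      have h2 : Commute y ⁅c, d⁆ := hy
      exact h1.mul_left h2
    | inv x _ hx =>
      have h1 : Commute x ⁅c, d⁆ := hx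
      exact h1.inv_left
  unfold D1 at hy
  rw [Subgroup.commutator_def] at hy
  induction hy using Subgroup.closure_induction with
  | mem y hy =>
    obtain ⟨c, -, d, -, rfl⟩ := hy
    exact step c d x hx
  | one => rw [one_mul, mul_one]
  | mul y z _ _ hy hz =>
    have h1 : Commute x y := hy
    have h2 : Commute x z := hz
    exact h1.mul_right h2
  | inv y _ hy =>
    have h1 : Commute x y := hy
    exact h1.inv_right

/-- metabelian groups are elementary amenable -/
theorem ea_of_metab (H : Type) [Group H] (h : derivedSeries H 2 = ⊥) : EA H := by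
  intro C _ hab _ _ hext _ _
  refine hext H (commutator H) (hab _ ?_) (hab _ ?_)
  · rintro ⟨x, hx⟩ ⟨y, hy⟩
    apply Subtype.ext
    show x * y = y * x
    have h1 : derivedSeries H 2 = D2 H := by
      simp [derivedSeries]
    rw [h1] at h
    have h2 : ⁅x, y⁆ ∈ (⊥ : Subgroup H) := by
      rw [← h]
      exact Subgroup.commutator_mem_commutator (by rwa [commutator_def] at hx)
        (by rwa [commutator_def] at hy)
    rwa [Subgroup.mem_bot, commutatorElement_eq_one_iff_mul_comm] at h2
  · intro a b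
    exact mul_comm (G := Abelianization H) a b

/-- finite index normal subgroups -/
theorem torGen_of_finiteIndex {G : Type} [Group G] (N : Subgroup G) (hN : N.Normal)
    (hf : N.FiniteIndex) : TorGen N := by
  rw [TorGen, eq_top_iff]
  intro y _
  apply Subgroup.subset_closure
  exact ⟨N.index, Nat.pos_of_ne_zero hf.index_ne_zero, Subgroup.pow_index_mem N y⟩

theorem locRes_of_resFin (H : Type) [Group H]
    (h : ∀ L : Subgroup H, L.FG → ∀ g : ↥L, g ≠ 1 → ∃ N : Subgroup ↥L, N.Normal ∧
      N.FiniteIndex ∧ g ∉ N) : LocRes H := by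
  intro L hL g hg
  obtain ⟨N, h1, h2, h3⟩ := h L hL g hg
  exact ⟨N, h1, h3, torGen_of_finiteIndex N h1 h2⟩

end FPT.RFM
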