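import Pool.Agent.Lib.MP_c27bde_al.FP.Spec

/-!
MP_c27bde_al, RF: simultaneous displacement and commutators.

If `N` is a normal subgroup of a group `H` of PL homeomorphisms and `N` moves every point that `H`
moves, then `[k₁, k₂] ∈ N` for all `k₁, k₂` in the commutator subgroup of `H`.
-/

set_option autoImplicit false

namespace FPT.RFM

open Set FPT

/-- `m` moves the interval `[x,y]` off itself -/
def Disp (m : Hm) (x y : ℝ) : Prop := y < m x ∨ m y < x

/-- the interval `[x,y]` lies in an orbital of `N` -/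
def InOrb (N : Subgroup Hm) (p : ℝ × ℝ) : Prop :=
  ∃ c d, c < p.1 ∧ p.1 ≤ p.2 ∧ p.2 < d ∧ (∀ g ∈ N, g c = c) ∧ (∀ g ∈ N, g d = d) ∧
    ∀ u, c < u → u < d → ∃ g ∈ N, g u ≠ u

lemma inv_apply (g : Hm) (x : ℝ) : g (g⁻¹ x) = x := by
  show (g * g⁻¹) x = x
  rw [mul_inv_cancel]
  rfl

lemma apply_inv (g : Hm) (x : ℝ) : g⁻¹ (g x) = x := by
  show (g⁻¹ * g) x = x
  rw [inv_mul_cancel]
  rfl

lemma inv_fix {g : Hm} {x : ℝ} (h : g x = x) : g⁻¹ x = x := by
  conv_lhs => rw [← h]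
  exact apply_inv g x

/-- the enlarged interval -/
noncomputable def big (g : Hm) (q : ℝ × ℝ) : ℝ × ℝ :=
  (min q.1 (min (g q.1) (g⁻¹ q.1)), max q.2 (max (g q.2) (g⁻¹ q.2)))

lemma big_inOrb {N : Subgroup Hm} {g : Hm} (hg : g ∈ N) {q : ℝ × ℝ} (hq : InOrb N q) :
    InOrb N (big g q) := by
  obtain ⟨c, d, h1, h2, h3, h4, h5, h6⟩ := hq
  refine ⟨c, d, ?_, ?_, ?_, h4, h5, h6⟩
  · refine lt_min h1 (lt_min ?_ ?_)
    · rw [← h4 g hg]; exact g.strictMono h1
    · rw [← h4 g⁻¹ (N.inv_mem hg)]; exact (g⁻¹).strictMono h1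
  · exact (min_le_left _ _).trans (h2.trans (le_max_left _ _))
  · refine max_lt h3 (max_lt ?_ ?_)
    · rw [← h5 g hg]; exact g.strictMono h3
    · rw [← h5 g⁻¹ (N.inv_mem hg)]; exact (g⁻¹).strictMono h3

lemma disp_inv {m : Hm} {x y : ℝ} (h : Disp m x y) : Disp m⁻¹ x y := by
  rcases h with h | h
  · right
    have := (m⁻¹).strictMono h
    rwa [apply_inv] at this
  · left
    have := (m⁻¹).strictMono h
    rwa [apply_inv] at this

/-- if `m` displaces the enlarged interval then `m` and `g m` displace the interval -/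
lemma disp_mul {g m : Hm} {q : ℝ × ℝ} (h : Disp m (big g q).1 (big g q).2) :
    Disp (g * m) q.1 q.2 := by
  have hx1 : (big g q).1 ≤ q.1 := min_le_left _ _
  have hx3 : (big g q).1 ≤ g⁻¹ q.1 := (min_le_right _ _).trans (min_le_right _ _)
  have hy1 : q.2 ≤ (big g q).2 := le_max_left _ _
  have hy3 : g⁻¹ q.2 ≤ (big g q).2 := (le_max_right _ _).trans (le_max_right _ _)
  rcases h with h | h
  · left
    have h1 : g⁻¹ q.2 < m q.1 := lt_of_le_of_lt hy3 (lt_of_lt_of_le h (m.monotone hx1))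
    have h2 := g.strictMono h1
    rwa [inv_apply] at h2
  · right
    have h1 : m q.2 < g⁻¹ q.1 := lt_of_lt_of_le (lt_of_le_of_lt (m.monotone hy1) h) hx3
    have h2 := g.strictMono h1
    rwa [inv_apply] at h2

lemma big_inv (g : Hm) (q : ℝ × ℝ) : big g⁻¹ q = big g q := by
  unfold big
  rw [inv_inv, min_comm (g⁻¹ q.1) (g q.1), max_comm (g⁻¹ q.2) (g q.2)]

/-- simultaneous displacement -/
theorem disp_list (hO : SpecORD) (N : Subgroup Hm) : ∀ (n : ℕ) (l : List (ℝ × ℝ)), l.length = n →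
    (∀ p ∈ l, InOrb N p) → ∃ m ∈ N, ∀ p ∈ l, Disp m p.1 p.2 := by
  intro n
  induction n with
  | zero =>
    intro l hl _
    rw [List.length_eq_zero_iff] at hl
    subst hl
    exact ⟨1, N.one_mem, by simp⟩
  | succ n ih =>
    intro l hl hp
    rcases l with _ | ⟨p, t⟩
    · simp at hl
    rw [List.length_cons, Nat.add_right_cancel_iff] at hl
    obtain ⟨c, d, h1, h2, h3, h4, h5, h6⟩ := hp p List.mem_cons_self
    obtain ⟨g, hg, hgx⟩ := hO.orbR N c d h4 h5 h6 p.1 p.2 h1 (lt_of_le_of_lt h2 h3) h3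
    obtain ⟨m, hm, hd⟩ := ih (t.map (big g)) (by rw [List.length_map, hl]) (by
      intro q hq
      rw [List.mem_map] at hq
      obtain ⟨q', hq', rfl⟩ := hq
      exact big_inOrb hg (hp q' (List.mem_cons_of_mem _ hq')))
    have hd' : ∀ q ∈ t, Disp m (big g q).1 (big g q).2 := fun q hq =>
      hd _ (List.mem_map_of_mem hq)
    -- the three candidates displace all of `t`
    have c1 : ∀ q ∈ t, Disp (g * m) q.1 q.2 := fun q hq => disp_mul (hd' q hq)
    have c2 : ∀ q ∈ t, Disp (g⁻¹ * m) q.1 q.2 := by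
      intro q hq
      have := hd' q hq
      rw [← big_inv g q] at this
      exact disp_mul this
    have c3 : ∀ q ∈ t, Disp (g * m⁻¹) q.1 q.2 := fun q hq => disp_mul (disp_inv (hd' q hq))
    rcases le_or_gt p.1 (m p.1) with h | h
    · refine ⟨g * m, N.mul_mem hg hm, ?_⟩
      intro q hq
      rw [List.mem_cons] at hq
      rcases hq with rfl | hq
      · left
        exact lt_of_lt_of_le hgx (g.monotone h)
      · exact c1 q hq
    · rcases le_or_gt (m p.2) p.2 with h' | h'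
      · refine ⟨g⁻¹ * m, N.mul_mem (N.inv_mem hg) hm, ?_⟩
        intro q hq
        rw [List.mem_cons] at hq
        rcases hq with rfl | hq
        · right
          have e1 : g⁻¹ q.2 < q.1 := by
            have := (g⁻¹).strictMono hgx
            rwa [apply_inv] at this
          exact lt_of_le_of_lt ((g⁻¹).monotone h') e1
        · exact c2 q hq
      · refine ⟨g * m⁻¹, N.mul_mem hg (N.inv_mem hm), ?_⟩
        intro q hq
        rw [List.mem_cons] at hq
        rcases hq with rfl | hq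
        · left
          have e1 : q.1 ≤ m⁻¹ q.1 := by
            have := (m⁻¹).monotone h.le
            rwa [apply_inv] at this
          exact lt_of_lt_of_le hgx (g.monotone e1)
        · exact c3 q hq

/-- disjoint supports commute -/
lemma commute_of_disjoint {k k' : Hm} (h : ∀ u, k u ≠ u → k' u = u) : k * k' = k' * k := by
  refine DFunLike.ext _ _ fun u => ?_
  show k (k' u) = k' (k u)
  by_cases h1 : k u = u
  · by_cases h2 : k' u = u
    · rw [h1, h2, h1]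
    · have h3 : k (k' u) = k' u := by
        by_contra h4
        have h5 := h _ h4
        exact h2 (k'.injective h5)
      rw [h3, h1]
  · have h2 := h u h1
    have h3 : k (k u) ≠ k u := fun h4 => h1 (k.injective h4)
    rw [h2, h _ h3]

/-- exponents at a point fixed by `H` vanish on the commutator subgroup -/
theorem germ_zero (hP : SpecPLB) (hQ : SpecPL2) {H : Subgroup Hm} (hpl : PLs H) {v : ℝ}
    (hv : ∀ g ∈ H, g v = v) {k : Hm} (hk : k ∈ ⁅H, H⁆) : k ∈ H ∧ er k v = 0 ∧ el k v = 0 := by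
  rw [Subgroup.commutator_def] at hk
  induction hk using Subgroup.closure_induction with
  | mem x hx =>
    obtain ⟨a, ha, b, hb, rfl⟩ := hx
    have ha' := H.inv_mem ha
    have hb' := H.inv_mem hb
    have hab := H.mul_mem ha hb
    have haba := H.mul_mem hab ha'
    rw [commutatorElement_def]
    refine ⟨H.mul_mem haba hb', ?_, ?_⟩
    · have e1 := hQ.erI a v (hpl a ha)
      have e2 := hQ.erI b v (hpl b hb)
      rw [hv a ha] at e1
      rw [hv b hb] at e2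
      rw [hP.erM _ _ _ (hpl _ haba) (hpl _ hb'), hv _ hb', hP.erM _ _ _ (hpl _ hab) (hpl _ ha'),
        hv _ ha', hP.erM _ _ _ (hpl _ ha) (hpl _ hb), hv _ hb, e1, e2]
      ring
    · have e1 := hQ.elI a v (hpl a ha)
      have e2 := hQ.elI b v (hpl b hb)
      rw [hv a ha] at e1
      rw [hv b hb] at e2
      rw [hP.elM _ _ _ (hpl _ haba) (hpl _ hb'), hv _ hb', hP.elM _ _ _ (hpl _ hab) (hpl _ ha'),
        hv _ ha', hP.elM _ _ _ (hpl _ ha) (hpl _ hb), hv _ hb, e1, e2]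
      ring
  | one => exact ⟨H.one_mem, hQ.er1 v, hQ.el1 v⟩
  | mul x y _ _ hx hy =>
    refine ⟨H.mul_mem hx.1 hy.1, ?_, ?_⟩
    · rw [hP.erM _ _ _ (hpl _ hx.1) (hpl _ hy.1), hv _ hy.1, hx.2.1, hy.2.1, add_zero]
    · rw [hP.elM _ _ _ (hpl _ hx.1) (hpl _ hy.1), hv _ hy.1, hx.2.2, hy.2.2, add_zero]
  | inv x _ hx =>
    have e1 := hQ.erI x v (hpl x hx.1)
    have e2 := hQ.elI x v (hpl x hx.1)
    rw [hv x hx.1] at e1 e2
    exact ⟨H.inv_mem hx.1, by rw [e1, hx.2.1, neg_zero], by rw [e2, hx.2.2, neg_zero]⟩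

/-- an element of the commutator subgroup is trivial near a point fixed by `H` -/
theorem trivial_near (hP : SpecPLB) (hQ : SpecPL2) {H : Subgroup Hm} (hpl : PLs H) {v : ℝ}
    (hv : ∀ g ∈ H, g v = v) {k : Hm} (hk : k ∈ ⁅H, H⁆) :
    ∃ ε > 0, ∀ y, v - ε ≤ y → y ≤ v + ε → k y = y := by
  obtain ⟨hkH, h1, h2⟩ := germ_zero hP hQ hpl hv hk
  obtain ⟨ε, hε, h3⟩ := hQ.er0 k v (hpl k hkH) (hv k hkH) h1
  obtain ⟨ε', hε', h4⟩ := hQ.el0 k v (hpl k hkH) (hv k hkH) h2
  refine ⟨min ε ε', lt_min hε hε', fun y hy1 hy2 => ?_⟩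
  rcases le_total v y with h | h
  · exact h3 y h (by linarith [min_le_left ε ε'])
  · exact h4 y (by linarith [min_le_right ε ε']) h

/-- the main argument -/
theorem comm_mem (hP : SpecPLB) (hQ : SpecPL2) (hO : SpecORD) (H N : Subgroup Hm) (hpl : PLs H)
    (hNH : N ≤ H) (hn : ∀ h ∈ H, ∀ n ∈ N, h * n * h⁻¹ ∈ N)
    (hmov : ∀ u, (∀ g ∈ N, g u = u) → ∀ g ∈ H, g u = u) (k1 k2 : Hm) (hk1 : k1 ∈ ⁅H, H⁆)
    (hk2 : k2 ∈ ⁅H, H⁆) : k1 * k2 * k1⁻¹ * k2⁻¹ ∈ N := by
  have hle : ⁅H, H⁆ ≤ H := by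
    rw [Subgroup.commutator_le]
    intro a ha b hb
    exact H.mul_mem (H.mul_mem (H.mul_mem ha hb) (H.inv_mem ha)) (H.inv_mem hb)
  have hN : PLs N := fun g hg => hpl g (hNH hg)
  obtain ⟨S, hS⟩ : ∃ S : Set ℝ, S = {u | k1 u ≠ u ∨ k2 u ≠ u} := ⟨_, rfl⟩
  have hS01 : S ⊆ Icc 0 1 := by
    intro u hu
    rw [hS] at hu
    by_contra h
    rw [mem_Icc, not_and_or, not_le, not_le] at h
    have p1 := hpl k1 (hle hk1)
    have p2 := hpl k2 (hle hk2)
    rcases h with h | h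
    · rcases hu with hu | hu
      · exact hu (p1.1 u h.le)
      · exact hu (p2.1 u h.le)
    · rcases hu with hu | hu
      · exact hu (p1.2.1 u h.le)
      · exact hu (p2.2.1 u h.le)
  have hKc : IsCompact (closure S) :=
    isCompact_Icc.of_isClosed_subset isClosed_closure (closure_minimal hS01 isClosed_Icc)
  -- points of the closure are moved by `H`
  have hKmov : ∀ v ∈ closure S, ∃ g ∈ N, g v ≠ v := by
    intro v hv
    by_contra hcon
    push Not at hcon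
    have hfix := hmov v hcon
    obtain ⟨ε1, hε1, t1⟩ := trivial_near hP hQ hpl hfix hk1
    obtain ⟨ε2, hε2, t2⟩ := trivial_near hP hQ hpl hfix hk2
    rw [Metric.mem_closure_iff] at hv
    obtain ⟨u, hu, hd⟩ := hv (min ε1 ε2) (lt_min hε1 hε2)
    rw [Real.dist_eq, abs_lt] at hd
    rw [hS] at hu
    rcases hu with hu | hu
    · exact hu (t1 u (by linarith [min_le_left ε1 ε2]) (by linarith [min_le_left ε1 ε2]))
    · exact hu (t2 u (by linarith [min_le_right ε1 ε2]) (by linarith [min_le_right ε1 ε2]))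
  have hfixK : ∀ v, (∀ g ∈ N, g v = v) → v ∉ closure S := by
    intro v hv hvK
    obtain ⟨g, hg, hgv⟩ := hKmov v hvK
    exact hgv (hv g hg)
  -- orbitals
  have horb : ∀ u, ∃ q : ℝ × ℝ, u ∈ closure S → q.1 < u ∧ u < q.2 ∧ (∀ g ∈ N, g q.1 = q.1) ∧
      (∀ g ∈ N, g q.2 = q.2) ∧ ∀ v, q.1 < v → v < q.2 → ∃ g ∈ N, g v ≠ v := by
    intro u
    by_cases hu : u ∈ closure S
    · obtain ⟨a, b, h1, h2, h3, h4, h5⟩ := hO.orbital N hN u (hKmov u hu)
      exact ⟨(a, b), fun _ => ⟨h1, h2, h3, h4, h5⟩⟩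
    · exact ⟨(0, 0), fun h => absurd h hu⟩
  choose q hq using horb
  obtain ⟨t, htK, htc⟩ := hKc.elim_nhds_subcover (fun u => Ioo (q u).1 (q u).2) (fun u hu =>
    Ioo_mem_nhds (hq u hu).1 (hq u hu).2.1)
  -- the compact pieces
  have hpiece : ∀ u, ∃ p : ℝ × ℝ, u ∈ closure S → (q u).1 < p.1 ∧ p.1 ≤ p.2 ∧ p.2 < (q u).2 ∧
      ∀ v ∈ closure S, (q u).1 < v → v < (q u).2 → p.1 ≤ v ∧ v ≤ p.2 := by
    intro u
    by_cases hu : u ∈ closure S
    · obtain ⟨g1, g2, g3, g4, g5⟩ := hq u hu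
      have hc : IsCompact (closure S ∩ Icc (q u).1 (q u).2) := hKc.inter_right isClosed_Icc
      have hne : (closure S ∩ Icc (q u).1 (q u).2).Nonempty := ⟨u, hu, g1.le, g2.le⟩
      obtain ⟨x, hx⟩ := hc.exists_isLeast hne
      obtain ⟨y, hy⟩ := hc.exists_isGreatest hne
      have hx1 : (q u).1 < x := lt_of_le_of_ne hx.1.2.1 (fun h => hfixK _ g3 (h ▸ hx.1.1))
      have hy1 : y < (q u).2 := lt_of_le_of_ne hy.1.2.2 (fun h => hfixK _ g4 (h ▸ hy.1.1))
      refine ⟨(x, y), fun _ => ⟨hx1, (hx.2 hy.1), hy1, fun v hv h1 h2 => ?_⟩⟩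
      exact ⟨hx.2 ⟨hv, h1.le, h2.le⟩, hy.2 ⟨hv, h1.le, h2.le⟩⟩
    · exact ⟨(0, 0), fun h => absurd h hu⟩
  choose p hp using hpiece
  obtain ⟨m, hm, hdisp⟩ := disp_list hO N _ (t.toList.map p) rfl (by
    intro r hr
    rw [List.mem_map] at hr
    obtain ⟨u, hu, rfl⟩ := hr
    have huK := htK u (Finset.mem_toList.1 hu)
    obtain ⟨h1, h2, h3, -⟩ := hp u huK
    obtain ⟨-, -, g3, g4, g5⟩ := hq u huK
    exact ⟨(q u).1, (q u).2, h1, h2, h3, g3, g4, g5⟩)
  -- `m` moves the closure off itself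
  have hoff : ∀ v ∈ closure S, m v ∉ closure S := by
    intro v hv hmv
    obtain ⟨u, hu, hvu⟩ := mem_iUnion₂.1 (htc hv)
    have huK := htK u hu
    obtain ⟨h1, h2, h3, h4⟩ := hp u huK
    obtain ⟨-, -, g3, g4, g5⟩ := hq u huK
    have hm1 : (q u).1 < m v := by
      rw [← g3 m hm]; exact m.strictMono hvu.1
    have hm2 : m v < (q u).2 := by
      rw [← g4 m hm]; exact m.strictMono hvu.2
    obtain ⟨e1, e2⟩ := h4 v hv hvu.1 hvu.2
    obtain ⟨e3, e4⟩ := h4 (m v) hmv hm1 hm2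
    have hd := hdisp (p u) (List.mem_map_of_mem (Finset.mem_toList.2 hu))
    rcases hd with hd | hd
    · exact absurd (lt_of_lt_of_le hd (m.monotone e1)) (not_lt.2 e4)
    · exact absurd (lt_of_le_of_lt (m.monotone e2) hd) (not_lt.2 e3)
  have hcomm : k1 * (m * k2 * m⁻¹) = (m * k2 * m⁻¹) * k1 := by
    apply commute_of_disjoint
    intro u hu
    by_contra h
    have h1 : k2 (m⁻¹ u) ≠ m⁻¹ u := by
      intro h2
      apply h
      show m (k2 (m⁻¹ u)) = u
      rw [h2, inv_apply]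
    have h2 : m⁻¹ u ∈ closure S := subset_closure (by rw [hS]; exact Or.inr h1)
    have h3 : u ∈ closure S := subset_closure (by rw [hS]; exact Or.inl hu)
    apply hoff _ h2
    rwa [inv_apply]
  -- algebra
  obtain ⟨z, hz⟩ : ∃ z : Hm, z = k2⁻¹ * m * k2 * m⁻¹ := ⟨_, rfl⟩
  have hzN : z ∈ N := by
    have h1 := hn k2⁻¹ (H.inv_mem (hle hk2)) m hm
    rw [inv_inv] at h1
    rw [hz]
    exact N.mul_mem h1 (N.inv_mem hm)
  have hmz : m * k2 * m⁻¹ = k2 * z := by
    rw [hz]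
    group
  rw [hmz] at hcomm
  have hk : k1 * k2 * k1⁻¹ * k2⁻¹ = k2 * (z * (k1 * z⁻¹ * k1⁻¹)) * k2⁻¹ := by
    have h1 : k1 * k2 = k2 * z * k1 * z⁻¹ := by
      rw [← hcomm]
      group
    rw [h1]
    group
  rw [hk]
  apply hn k2 (hle hk2)
  exact N.mul_mem hzN (hn k1 (hle hk1) _ (N.inv_mem hzN))

end FPT.RFM
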